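import Pool.Agent.W606.SN.Stm

set_option autoImplicit false

namespace Pool.Agent.W906.SN

open Pool.Agent.W606.SN

theorem ball_mono {V : Type} (G : SimpleGraph V) (v : V) {r s : ℕ} (h : r ≤ s) :
    ball G v r ⊆ ball G v s := by
  induction h with
  | refl => exact subset_rfl
  | step h ih => exact fun w hw => ⟨w, ih hw, RA.refl _ _⟩

theorem walk_ball {F T : Type} (GF : SimpleGraph F) (GT : SimpleGraph T) (v w : F × T)
    (p : (SP GF GT).Walk v w) :
    w.1 ∈ ball GF v.1 p.length ∧ w.2 ∈ ball GT v.2 p.length := by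
  induction p using SimpleGraph.Walk.concatRec with
  | Hnil => exact ⟨rfl, rfl⟩
  | Hconcat p h ih =>
    rw [SimpleGraph.Walk.length_concat]
    exact ⟨⟨_, ih.1, h.2.1⟩, ⟨_, ih.2, h.2.2⟩⟩

theorem main (h : S_GROW) : S_QUAD := by
  intro m v r hr
  have hsub : {w | (SP (TG m) (TG m)).edist v w ≤ (r : ℕ∞)} ⊆
      (ball (TG m) v.1 r) ×ˢ (ball (TG m) v.2 r) := by
    intro w hw
    have hw' : (SP (TG m) (TG m)).edist v w ≤ (r : ℕ∞) := hw
    have hne : (SP (TG m) (TG m)).edist v w ≠ ⊤ := by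
      intro h0
      rw [h0] at hw'
      exact absurd hw' (by simp)
    obtain ⟨p, hp⟩ := SimpleGraph.exists_walk_of_edist_ne_top hne
    have hlen : p.length ≤ r := by
      have h1 : (p.length : ℕ∞) ≤ (r : ℕ∞) := by rw [hp]; exact hw'
      exact_mod_cast h1
    have hb := walk_ball (TG m) (TG m) v w p
    exact ⟨ball_mono _ _ hlen hb.1, ball_mono _ _ hlen hb.2⟩
  have hfin : ((ball (TG m) v.1 r) ×ˢ (ball (TG m) v.2 r)).Finite := Set.toFinite _
  calc {w | (SP (TG m) (TG m)).edist v w ≤ (r : ℕ∞)}.ncard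
      ≤ ((ball (TG m) v.1 r) ×ˢ (ball (TG m) v.2 r)).ncard := Set.ncard_le_ncard hsub hfin
    _ = (ball (TG m) v.1 r).ncard * (ball (TG m) v.2 r).ncard := Set.ncard_prod
    _ ≤ (13 * r + 1) * (13 * r + 1) := Nat.mul_le_mul (h m v.1 r) (h m v.2 r)
    _ ≤ (14 * r) * (14 * r) := Nat.mul_le_mul (by omega) (by omega)
    _ = 196 * r ^ 2 := by ring

end Pool.Agent.W906.SN
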